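import Pool.Agent.H.MP_222440_ag.Defs

set_option autoImplicit false
open MvPolynomial Pool.Agent.H.MP_411355_ag

namespace Pool.Agent.H.MP_95a67a_ag

variable {σ A : Type} [AddCommGroup A] (w : σ → A)

/-- The dimension of the degree `a` part of `S / I`. -/
noncomputable def codim (I : Ideal (MvPolynomial σ ℂ)) (a : A) : Cardinal := Module.rank ℂ (Piece w I a)

/-- The critical degree. -/
def crit [Fintype σ] {ι : Type} [Fintype ι] (α : ι → A) : A := ∑ i, α i - ∑ ρ, w ρ

end Pool.Agent.H.MP_95a67a_ag
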